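import Mathlib

/-! # MP_0d9f0f_an (scalar case N = M = C): definitions

Absolutely continuous Herglotz measures and the Hankel resolvent limit condition. -/

set_option autoImplicit false

open MeasureTheory Filter Topology Set Complex

namespace Pool.Agent.Run7.h58.AR

/-- the open unit disc -/
def D : Set ℂ := Metric.ball 0 1

/-- the closed unit disc without the point `1` -/
def D1 : Set ℂ := Metric.closedBall 0 1 \ {1}

/-- the class of holomorphic functions on the disc bounded by one -/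
def Schur (f : ℂ → ℂ) : Prop := DifferentiableOn ℂ f D ∧ ∀ z ∈ D, ‖f z‖ ≤ 1

/-- the Schwarz-Herglotz kernel `(t + z)/(t - z)` at `t = exp(i theta)` -/
noncomputable def ker (z : ℂ) (θ : ℝ) : ℂ := (exp (θ * I) + z) / (exp (θ * I) - z)

/-- the integral over the circle with respect to normalised Lebesgue measure -/
noncomputable def mean (g : ℝ → ℂ) : ℂ := (2 * Real.pi : ℂ)⁻¹ * ∫ θ in (-Real.pi)..Real.pi, g θ

/-- `σ` (a finite Borel measure on the circle, written as a measure on the interval `(-π, π]` of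
angles) is the measure in the Riesz-Herglotz representation of `F` (for `F 0 = 1`) -/
def HerglotzMeasure (F : ℂ → ℂ) (σ : Measure ℝ) : Prop :=
  IsFiniteMeasure σ ∧ σ (Ioc (-Real.pi) Real.pi)ᶜ = 0 ∧ ∀ z ∈ D, F z = ∫ θ, ker z θ ∂σ

/-- the function `(1 + χ E)/(1 - χ E)` -/
noncomputable def cay (χ E : ℂ → ℂ) : ℂ → ℂ := fun z => (1 + χ z * E z) / (1 - χ z * E z)

/-- the class `B_a`: `χ` is in the Schur class, `χ 0 = 0`, and for every Schur function `E` the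
Herglotz measure of `(1 + χ E)/(1 - χ E)` exists and is absolutely continuous -/
def ClassBa (χ : ℂ → ℂ) : Prop :=
  Schur χ ∧ χ 0 = 0 ∧ ∀ E, Schur E → (∃ σ, HerglotzMeasure (cay χ E) σ) ∧
    ∀ σ, HerglotzMeasure (cay χ E) σ → σ ≪ (volume : Measure ℝ)

/-- `b θ` is the radial limit of `f` at `exp(i θ)` for almost every `θ` in `(-π, π]` -/
def IsBoundary (f : ℂ → ℂ) (b : ℝ → ℂ) : Prop :=
  ∀ᵐ θ : ℝ ∂(volume.restrict (Ioc (-Real.pi) Real.pi)),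
    Tendsto (fun r : ℝ => f (r * exp (θ * I))) (𝓝[<] 1) (𝓝 (b θ))

/-- the Szego condition `log (1 - |χ|^2)` integrable on the circle (in particular `|χ| < 1`
almost everywhere) -/
def ClassSz (χ : ℂ → ℂ) : Prop :=
  ∃ χ' : ℝ → ℂ, IsBoundary χ χ' ∧
    (∀ᵐ θ : ℝ ∂(volume.restrict (Ioc (-Real.pi) Real.pi)), ‖χ' θ‖ < 1) ∧
    IntervalIntegrable (fun θ => Real.log (1 - ‖χ' θ‖ ^ 2)) volume (-Real.pi) Real.pi

/-- `a` is the outer function, positive at the origin, with boundary values `a'` -/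
def IsOuter (a : ℂ → ℂ) (a' : ℝ → ℂ) : Prop :=
  IsBoundary a a' ∧ (∀ᵐ θ : ℝ ∂(volume.restrict (Ioc (-Real.pi) Real.pi)), a' θ ≠ 0) ∧
    IntervalIntegrable (fun θ => Real.log ‖a' θ‖) volume (-Real.pi) Real.pi ∧
    ∀ z ∈ D, a z = exp (mean (fun θ => ker z θ * (Real.log ‖a' θ‖ : ℂ)))

/-- `f_0 = q_- P_+^{-1}`, `q_- = P_- χ^*`, where `P_+^{-1} = a`, `P_-^{-1} = conj a` on the circle -/
noncomputable def f0 (χ' a' : ℝ → ℂ) : ℝ → ℂ :=
  fun θ => (starRingEnd ℂ) (χ' θ) * a' θ / (starRingEnd ℂ) (a' θ)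

/-- Fourier coefficients on the circle -/
noncomputable def fc (g : ℝ → ℂ) (n : ℤ) : ℂ := mean (fun θ => g θ * exp (-(n * θ * I)))

/-- the space of square summable sequences -/
abbrev L2 : Type := lp (fun _ : ℕ => ℂ) 2

/-- the first unit vector -/
noncomputable def e0 : L2 := lp.single 2 (0 : ℕ) (1 : ℂ)

/-- `Γ` has the Hankel matrix `(g^(-j-k+1))`, `j, k ≥ 1` (here `j, k ≥ 0`) -/
def IsHankel (Γ : L2 →L[ℂ] L2) (g : ℝ → ℂ) : Prop :=
  ∀ j k : ℕ, (Γ (lp.single 2 k (1 : ℂ)) : ℕ → ℂ) j = fc g (-((j : ℤ) + k + 1))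

/-- the resolvent `(I - ρ^2 T)^{-1}` -/
noncomputable def res (T : L2 →L[ℂ] L2) (ρ : ℝ) : L2 →L[ℂ] L2 :=
  Ring.inverse (1 - ((ρ : ℂ) ^ 2) • T)

/-- the positive square root of `[P_0 (I - ρ^2 T)^{-1} | P_0]^{-1}`, `P_0` the projection on the
first coordinate -/
noncomputable def root (T : L2 →L[ℂ] L2) (ρ : ℝ) : ℝ :=
  (Real.sqrt ((res T ρ e0 : ℕ → ℂ) 0).re)⁻¹

/-- the power series with coefficients `h` -/
noncomputable def gen (h : L2) (z : ℂ) : ℂ := ∑' j : ℕ, (h : ℕ → ℂ) j * z ^ j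

/-- `P_+(z, ρ)` -/
noncomputable def Pp (Γ : L2 →L[ℂ] L2) (z : ℂ) (ρ : ℝ) : ℂ :=
  gen (res (ContinuousLinearMap.adjoint Γ * Γ) ρ
    ((root (ContinuousLinearMap.adjoint Γ * Γ) ρ : ℂ) • e0)) z

/-- `q_+(z, ρ)` -/
noncomputable def qp (Γ : L2 →L[ℂ] L2) (z : ℂ) (ρ : ℝ) : ℂ :=
  ρ * z * gen (ContinuousLinearMap.adjoint Γ (res (Γ * ContinuousLinearMap.adjoint Γ) ρ
    ((root (Γ * ContinuousLinearMap.adjoint Γ) ρ : ℂ) • e0))) z

/-- `Γ` is the Hankel operator attached to `χ` -/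
def Data (χ : ℂ → ℂ) (Γ : L2 →L[ℂ] L2) : Prop :=
  ∃ (χ' : ℝ → ℂ) (a : ℂ → ℂ) (a' : ℝ → ℂ), IsBoundary χ χ' ∧ IsOuter a a' ∧
    (∀ᵐ θ : ℝ ∂(volume.restrict (Ioc (-Real.pi) Real.pi)), ‖a' θ‖ ^ 2 = 1 - ‖χ' θ‖ ^ 2) ∧
    IsHankel Γ (f0 χ' a')

/-- condition (4) for `χ` with Hankel operator `Γ` -/
def Cond4 (χ : ℂ → ℂ) (Γ : L2 →L[ℂ] L2) : Prop :=
  ∀ z ∈ D, Tendsto (fun ρ : ℝ => (Pp Γ z ρ)⁻¹ * qp Γ z ρ) (𝓝[<] 1) (𝓝 (χ z))

/-- the goal: `B_a` and the Szego condition do not imply condition (4) -/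
def Goal : Prop :=
  ∃ χ : ℂ → ℂ, ClassBa χ ∧ ClassSz χ ∧ (∃ Γ, Data χ Γ) ∧ ∀ Γ, Data χ Γ → ¬ Cond4 χ Γ

end Pool.Agent.Run7.h58.AR
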