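import Pool.Agent.Run7.h58.AR.Iface

set_option autoImplicit false

open MeasureTheory Filter Topology Set Complex

namespace Pool.Agent.Run7.h58.AR

/-- the function of the counterexample -/
noncomputable def chi (z : ℂ) : ℂ := z * chi0 z

lemma D_sub : D ⊆ D1 := by
  intro z hz
  have hz' : ‖z‖ < 1 := by simpa [D] using hz
  refine ⟨by simpa using hz'.le, ?_⟩
  rintro rfl
  simp at hz'

lemma AA_ne (hE : S_ELEM) (hM : S_MAP) {z : ℂ} (hz : z ∈ D1) : AA (vv z) ≠ 0 := by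
  obtain ⟨h1, h2, -⟩ := hM.2.2.1 z hz
  have h := hE (vv z) h1 h2
  intro h0
  rw [h0] at h
  simp only [norm_zero] at h
  nlinarith [sq_nonneg ‖phi (vv z)‖]

lemma one_le_AA (hE : S_ELEM) (hM : S_MAP) {z : ℂ} (hz : z ∈ D1) : 1 ≤ ‖AA (vv z)‖ := by
  obtain ⟨h1, h2, -⟩ := hM.2.2.1 z hz
  have h := hE (vv z) h1 h2
  nlinarith [sq_nonneg ‖phi (vv z)‖, norm_nonneg (AA (vv z))]

lemma chi0_lt (hE : S_ELEM) (hM : S_MAP) {z : ℂ} (hz : z ∈ D1) : ‖chi0 z‖ < 1 := by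
  obtain ⟨h1, h2, -⟩ := hM.2.2.1 z hz
  have h := hE (vv z) h1 h2
  have h3 := one_le_AA hE hM hz
  unfold chi0
  rw [norm_div, div_lt_one (by linarith)]
  nlinarith [norm_nonneg (phi (vv z))]

lemma chi0_diff (hE : S_ELEM) (hG : S_GROW) (hM : S_MAP) : DifferentiableOn ℂ chi0 D := by
  intro z hz
  have h1 := hM.1 z hz
  exact ((hG.1 (vv z)).comp_differentiableWithinAt z h1).div
    ((hG.2.1 (vv z)).comp_differentiableWithinAt z h1) (AA_ne hE hM (D_sub hz))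

lemma chi0_cont (hE : S_ELEM) (hG : S_GROW) (hM : S_MAP) : ContinuousOn chi0 D1 := by
  intro z hz
  have h1 := hM.2.1 z hz
  exact (hG.1.continuous.continuousAt.comp_continuousWithinAt h1).div
    (hG.2.1.continuous.continuousAt.comp_continuousWithinAt h1) (AA_ne hE hM hz)

lemma chi_diff (hE : S_ELEM) (hG : S_GROW) (hM : S_MAP) : DifferentiableOn ℂ chi D :=
  differentiableOn_id.mul (chi0_diff hE hG hM)

lemma chi_cont (hE : S_ELEM) (hG : S_GROW) (hM : S_MAP) : ContinuousOn chi D1 :=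
  continuousOn_id.mul (chi0_cont hE hG hM)

lemma norm_le_D1 {z : ℂ} (hz : z ∈ D1) : ‖z‖ ≤ 1 := by simpa using hz.1

lemma chi_le {z : ℂ} (hz : z ∈ D1) : ‖chi z‖ ≤ ‖chi0 z‖ := by
  unfold chi
  rw [norm_mul]
  nlinarith [norm_nonneg (chi0 z), norm_le_D1 hz]

lemma chi_lt (hE : S_ELEM) (hM : S_MAP) {z : ℂ} (hz : z ∈ D1) : ‖chi z‖ < 1 :=
  lt_of_le_of_lt (chi_le hz) (chi0_lt hE hM hz)

lemma ofReal_mem {r : ℝ} (h0 : 0 < r) (h1 : r < 1) : (r : ℂ) ∈ D := by
  simp [D, abs_of_pos h0, h1]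

lemma ray_bound (hE : S_ELEM) (hR : S_RAY) (hM : S_MAP) {r : ℝ} (h0 : (99 : ℝ) / 101 ≤ r) (h1 : r < 1) :
    (1 - r) / (1 - ‖chi r‖) ≤ 32 * Real.sqrt (1 - r) := by
  have hr0 : 0 < r := by linarith
  have hz : (r : ℂ) ∈ D1 := D_sub (ofReal_mem hr0 h1)
  set q : ℝ := Real.sqrt ((1 + r) / (1 - r)) with hq
  have h1r : 0 < 1 - r := by linarith
  have hq10 : 10 ≤ q := by
    rw [hq]
    apply Real.le_sqrt_of_sq_le
    rw [le_div_iff₀ h1r]
    linarith
  have hqsq : q ^ 2 = (1 + r) / (1 - r) := Real.sq_sqrt (div_nonneg (by linarith) h1r.le)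
  have hv : vv r = exp (Real.pi / 4 * I) * (q : ℝ) := hM.2.2.2 r hr0.le h1
  have h2 := hR q hq10
  rw [← hv] at h2
  have hA := one_le_AA hE hM hz
  have h3 : ‖chi0 r‖ ^ 2 ≤ 1 - 1 / (8 * q) := by
    unfold chi0
    rw [norm_div, div_pow, div_le_iff₀ (by positivity)]
    exact h2
  have h4 : ‖chi r‖ ≤ ‖chi0 r‖ := chi_le hz
  have h5 : ‖chi0 r‖ < 1 := chi0_lt hE hM hz
  have h6 : 1 / (16 * q) ≤ 1 - ‖chi r‖ := by
    have e : 1 / (16 * q) = (1 / (8 * q)) / 2 := by field_simp; ring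
    rw [e]
    nlinarith [norm_nonneg (chi0 r)]
  have hq0 : 0 < q := by linarith
  have h7 : (1 - r) / (1 - ‖chi r‖) ≤ 16 * q * (1 - r) := by
    rw [div_le_iff₀ (lt_of_lt_of_le (by positivity) h6)]
    have : 1 ≤ 16 * q * (1 - ‖chi r‖) := by
      have := mul_le_mul_of_nonneg_left h6 (show 0 ≤ 16 * q by positivity)
      rwa [mul_one_div_cancel (by positivity)] at this
    nlinarith
  refine h7.trans ?_
  have h8 : q * Real.sqrt (1 - r) = Real.sqrt (1 + r) := by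
    rw [hq, ← Real.sqrt_mul (div_nonneg (by linarith) h1r.le), div_mul_cancel₀ _ h1r.ne']
  have h9 : Real.sqrt (1 + r) ≤ 2 := by
    rw [Real.sqrt_le_left (by norm_num)]
    linarith
  have h10 : (1 - r) = Real.sqrt (1 - r) * Real.sqrt (1 - r) := (Real.mul_self_sqrt h1r.le).symm
  calc 16 * q * (1 - r) = 16 * (q * Real.sqrt (1 - r)) * Real.sqrt (1 - r) := by
        conv_lhs => rw [h10]
        ring
    _ ≤ 16 * 2 * Real.sqrt (1 - r) := by
        rw [h8]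
        gcongr
    _ = 32 * Real.sqrt (1 - r) := by ring

lemma ray_lim (hE : S_ELEM) (hR : S_RAY) (hM : S_MAP) :
    Tendsto (fun r : ℝ => (1 - r) / (1 - ‖chi r‖)) (𝓝[<] 1) (𝓝 0) := by
  have hl : Tendsto (fun r : ℝ => 32 * Real.sqrt (1 - r)) (𝓝[<] 1) (𝓝 0) := by
    have : Continuous fun r : ℝ => 32 * Real.sqrt (1 - r) := by fun_prop
    have h := this.tendsto 1
    simp only [sub_self, Real.sqrt_zero, mul_zero] at h
    exact h.mono_left nhdsWithin_le_nhds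
  have hev : ∀ᶠ r : ℝ in 𝓝[<] 1, r ∈ Ioo ((99:ℝ)/101) 1 := Ioo_mem_nhdsLT (by norm_num)
  refine tendsto_of_tendsto_of_tendsto_of_le_of_le' tendsto_const_nhds hl ?_ ?_
  · filter_upwards [hev] with r hr
    have hz : (r : ℂ) ∈ D1 := D_sub (ofReal_mem (by linarith [hr.1]) hr.2)
    exact div_nonneg (by linarith [hr.2]) (by linarith [chi_lt hE hM hz])
  · filter_upwards [hev] with r hr
    exact ray_bound hE hR hM hr.1.le hr.2

lemma chi_ba (hE : S_ELEM) (hG : S_GROW) (hR : S_RAY) (hM : S_MAP) (h1 : S_HEX) (h2 : S_HUN)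
    (h3 : S_ATOM) (hBA : S_BA) : ClassBa chi :=
  hBA h1 h2 h3 chi (chi_diff hE hG hM) (chi_cont hE hG hM) (fun _ hz => chi_lt hE hM hz)
    (by simp [chi]) (ray_lim hE hR hM)

/-- points of the circle other than one -/
lemma circ_mem {θ : ℝ} (h : θ ∈ Ioc (-Real.pi) Real.pi) (h0 : θ ≠ 0) : exp (θ * I) ∈ D1 := by
  refine ⟨by simp [norm_exp_ofReal_mul_I], ?_⟩
  intro h1
  simp only [mem_singleton_iff] at h1
  rw [Complex.exp_eq_one_iff] at h1
  obtain ⟨n, hn⟩ := h1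
  have h2 : (θ : ℂ) = n * (2 * Real.pi) := by
    have h3 : (θ : ℂ) * I = (n * (2 * Real.pi)) * I := by rw [hn]; ring
    exact mul_right_cancel₀ I_ne_zero h3
  have h3 : θ = n * (2 * Real.pi) := by exact_mod_cast h2
  have hpi := Real.pi_pos
  have hn1 : (n : ℝ) < 1 := by
    by_contra hc
    push Not at hc
    nlinarith [h.2]
  have hn2 : -1 < (n : ℝ) := by
    by_contra hc
    push Not at hc
    nlinarith [h.1]
  have hn0 : n = 0 := by
    have a1 : n < 1 := by exact_mod_cast hn1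
    have a2 : -1 < n := by exact_mod_cast hn2
    omega
  rw [hn0] at h3
  simp at h3
  exact h0 h3

lemma ae_ne_zero : ∀ᵐ θ : ℝ ∂(volume.restrict (Ioc (-Real.pi) Real.pi)),
    θ ∈ Ioc (-Real.pi) Real.pi ∧ θ ≠ 0 := by
  have h1 : ∀ᵐ θ : ℝ ∂(volume.restrict (Ioc (-Real.pi) Real.pi)), θ ∈ Ioc (-Real.pi) Real.pi :=
    ae_restrict_mem measurableSet_Ioc
  have h2 : ∀ᵐ θ : ℝ ∂(volume.restrict (Ioc (-Real.pi) Real.pi)), θ ≠ 0 := by
    apply ae_restrict_of_ae
    exact Measure.ae_ne volume 0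
  filter_upwards [h1, h2] with θ a b using ⟨a, b⟩

lemma radial {f : ℂ → ℂ} (hf : ContinuousOn f D1) {θ : ℝ} (h : exp (θ * I) ∈ D1) :
    Tendsto (fun r : ℝ => f (r * exp (θ * I))) (𝓝[<] 1) (𝓝 (f (exp (θ * I)))) := by
  have h1 := hf _ h
  have h2 : Tendsto (fun r : ℝ => (r : ℂ) * exp (θ * I)) (𝓝[<] 1) (𝓝[D1] (exp (θ * I))) := by
    apply tendsto_nhdsWithin_iff.2
    constructor
    · have : Continuous fun r : ℝ => (r : ℂ) * exp (θ * I) := by fun_prop
      have h3 := this.tendsto 1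
      simp only [ofReal_one, one_mul] at h3
      exact h3.mono_left nhdsWithin_le_nhds
    · have hev : ∀ᶠ r : ℝ in 𝓝[<] 1, r ∈ Ioo (0:ℝ) 1 := Ioo_mem_nhdsLT (by norm_num)
      filter_upwards [hev] with r hr
      apply D_sub
      simp [D, norm_exp_ofReal_mul_I, abs_of_pos hr.1, hr.2]
  exact h1.tendsto.comp h2

lemma boundary_of_cont {f : ℂ → ℂ} (hf : ContinuousOn f D1) :
    IsBoundary f (fun θ => f (exp (θ * I))) := by
  filter_upwards [ae_ne_zero] with θ hθ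
  exact radial hf (circ_mem hθ.1 hθ.2)

/-- the logarithm of the modulus of the denominator -/
noncomputable def uu (z : ℂ) : ℝ := Real.log ‖AA (vv z)‖

lemma uu_cont (hE : S_ELEM) (hG : S_GROW) (hM : S_MAP) : ContinuousOn uu D1 := by
  intro z hz
  have h1 := hM.2.1 z hz
  have h2 := (hG.2.1.continuous.norm.continuousAt (x := vv z)).comp_continuousWithinAt h1
  exact h2.log (by simpa using AA_ne hE hM hz)

lemma uu_bound (hE : S_ELEM) (hG : S_GROW) (hM : S_MAP) {z : ℂ} (hz : z ∈ D) :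
    |uu z| ≤ 20 / Real.sqrt ‖1 - z‖ := by
  have hz1 := D_sub hz
  have h1 := one_le_AA hE hM hz1
  have h2 := hG.2.2 (vv z)
  obtain ⟨-, -, -, h3, -⟩ := hM.2.2.1 z hz1
  have hpos : 0 < ‖1 - z‖ := by
    rw [norm_pos_iff, sub_ne_zero]
    intro h
    exact hz1.2 (by simp [← h])
  have hs0 : 0 < Real.sqrt ‖1 - z‖ := Real.sqrt_pos.2 hpos
  have hle2 : ‖1 - z‖ ≤ 4 := by
    have := norm_sub_le (1:ℂ) z
    have h4 := norm_le_D1 hz1
    simp at this
    linarith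
  have hs2 : Real.sqrt ‖1 - z‖ ≤ 2 := by
    rw [Real.sqrt_le_left (by norm_num)]
    linarith
  unfold uu
  rw [abs_of_nonneg (Real.log_nonneg h1)]
  set t := ‖vv z‖ with ht
  have ht0 : 0 ≤ t := norm_nonneg _
  have h5 : Real.log ‖AA (vv z)‖ ≤ Real.log (2 * (1 + t) ^ 2 * Real.exp t) :=
    Real.log_le_log (by linarith) h2
  have h6 : Real.log (2 * (1 + t) ^ 2 * Real.exp t) = Real.log 2 + 2 * Real.log (1 + t) + t := by
    rw [Real.log_mul (by positivity) (Real.exp_ne_zero _), Real.log_mul (by norm_num) (by positivity),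
      Real.log_pow, Real.log_exp]
    norm_num
  have h7 : Real.log 2 ≤ 1 := by
    have := Real.log_le_sub_one_of_pos (show (0:ℝ) < 2 by norm_num)
    linarith
  have h8 : Real.log (1 + t) ≤ t := by
    have := Real.log_le_sub_one_of_pos (show (0:ℝ) < 1 + t by linarith)
    linarith
  have h9 : Real.log ‖AA (vv z)‖ ≤ 1 + 3 * t := by linarith
  refine h9.trans ?_
  rw [le_div_iff₀ hs0]
  rw [le_div_iff₀ hs0] at h3
  nlinarith

lemma AAc_diff (hG : S_GROW) (hM : S_MAP) : DifferentiableOn ℂ (fun z => AA (vv z)) D := by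
  intro z hz
  exact (hG.2.1 (vv z)).comp_differentiableWithinAt z (hM.1 z hz)

end Pool.Agent.Run7.h58.AR
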