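import Pool.Agent.Run7.h58.AR.Final

set_option autoImplicit false

open MeasureTheory Filter Topology Set Complex

namespace Pool.Agent.Run7.h58.AR

lemma vv_axis (hM : S_MAP) {θ : ℝ} (h : exp (θ * I) ∈ D1) :
    (vv (exp (θ * I))).re = 0 ∨ (vv (exp (θ * I))).im = 0 :=
  (hM.2.2.1 _ h).2.2.2.2 (by simp [norm_exp_ofReal_mul_I])

/-- boundary identity `1 - |χ|^2 = |AA|^{-2}` -/
lemma bd_sq (hE : S_ELEM) (hB : S_BDRY) (hM : S_MAP) {θ : ℝ} (h : exp (θ * I) ∈ D1) :
    1 - ‖chi (exp (θ * I))‖ ^ 2 = (‖AA (vv (exp (θ * I)))‖ ^ 2)⁻¹ := by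
  have h1 := (hB _ (vv_axis hM h)).2
  have h2 := AA_ne hE hM h
  have h3 : ‖chi (exp (θ * I))‖ = ‖phi (vv (exp (θ * I)))‖ / ‖AA (vv (exp (θ * I)))‖ := by
    simp [chi, chi0, norm_exp_ofReal_mul_I]
  have h4 : ‖AA (vv (exp (θ * I)))‖ ≠ 0 := by simpa using h2
  rw [h3, div_pow, eq_comm, inv_eq_iff_eq_inv]
  rw [eq_sub_of_add_eq' h1.symm |> fun e => e]
  field_simp
  ring

lemma chi_sz (hE : S_ELEM) (hB : S_BDRY) (hG : S_GROW) (hM : S_MAP) (hS : S_SCHW) (hL : S_LOG) :
    ClassSz chi := by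
  refine ⟨fun θ => chi (exp (θ * I)), boundary_of_cont (chi_cont hE hG hM), ?_, ?_⟩
  · filter_upwards [ae_ne_zero] with θ hθ
    exact chi_lt hE hM (circ_mem hθ.1 hθ.2)
  · obtain ⟨L, hLd, hLe⟩ := hL _ (AAc_diff hG hM) (fun z hz => AA_ne hE hM (D_sub hz))
    have h1 := (hS L uu 20 hLd (fun z hz => by
      unfold uu
      rw [hLe z hz, norm_exp, Real.log_exp]) (uu_cont hE hG hM) (fun z hz => uu_bound hE hG hM hz)).1
    have h2 := h1.const_mul (-2)
    rw [intervalIntegrable_iff_integrableOn_Ioc_of_le (by linarith [Real.pi_pos])] at h2 ⊢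
    refine h2.congr ?_
    filter_upwards [ae_ne_zero] with θ hθ
    have h3 := circ_mem hθ.1 hθ.2
    rw [bd_sq hE hB hM h3, Real.log_inv, Real.log_pow]
    unfold uu
    push_cast
    ring

/-- the data of the outer function -/
lemma outer_exists (hE : S_ELEM) (hG : S_GROW) (hM : S_MAP) (hS : S_SCHW) (hL : S_LOG) :
    ∃ (c : ℂ) (a : ℂ → ℂ), ‖c‖ = 1 ∧ (∀ z ∈ D, a z = c / AA (vv z)) ∧
      IsOuter a (fun θ => c / AA (vv (exp (θ * I)))) := by
  obtain ⟨L, hLd, hLe⟩ := hL _ (AAc_diff hG hM) (fun z hz => AA_ne hE hM (D_sub hz))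
  have hre : ∀ z ∈ D, (L z).re = uu z := fun z hz => by
      unfold uu
      rw [hLe z hz, norm_exp, Real.log_exp]
  obtain ⟨h1, h2⟩ := hS L uu 20 hLd hre (uu_cont hE hG hM) (fun z hz => uu_bound hE hG hM hz)
  set c : ℂ := exp (I * (L 0).im) with hc
  have hc1 : ‖c‖ = 1 := by
    rw [hc, mul_comm, norm_exp_ofReal_mul_I]
  have hc0 : c ≠ 0 := exp_ne_zero _
  refine ⟨c, fun z => c / AA (vv z), hc1, fun z _ => rfl, ?_, ?_, ?_, ?_⟩
  · have hcont : ContinuousOn (fun z => c / AA (vv z)) D1 := by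
      intro z hz
      have h1 := hM.2.1 z hz
      exact continuousWithinAt_const.div
        (hG.2.1.continuous.continuousAt.comp_continuousWithinAt h1) (AA_ne hE hM hz)
    exact boundary_of_cont hcont
  · filter_upwards [ae_ne_zero] with θ hθ
    exact div_ne_zero hc0 (AA_ne hE hM (circ_mem hθ.1 hθ.2))
  · have h3 := h1.const_mul (-1)
    refine h3.congr ?_
    intro θ _
    simp only [norm_div, hc1, one_div, Real.log_inv]
    unfold uu
    ring
  · intro z hz
    have h3 := h2 z hz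
    have h4 : mean (fun θ => ker z θ * (Real.log ‖c / AA (vv (exp (θ * I)))‖ : ℂ)) =
        -mean (fun θ => ker z θ * (uu (exp (θ * I)) : ℂ)) := by
      unfold mean
      rw [← mul_neg, ← intervalIntegral.integral_neg]
      congr 1
      apply intervalIntegral.integral_congr
      intro θ _
      simp only [norm_div, hc1, one_div, Real.log_inv]
      unfold uu
      push_cast
      ring
    have h5 : mean (fun θ => ker z θ * (uu (exp (θ * I)) : ℂ)) = L z - I * (L 0).im := by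
      rw [h3]; ring
    rw [h4, h5, neg_sub, Complex.exp_sub, ← hLe z hz, hc]

/-- the Fourier coefficients of `f_0` -/
lemma f0_fc (hE : S_ELEM) (hB : S_BDRY) (hG : S_GROW) (hM : S_MAP) (hC : S_CAU) {c : ℂ} (hc : ‖c‖ = 1)
    {χ' a' : ℝ → ℂ}
    (h1 : ∀ᵐ θ : ℝ ∂(volume.restrict (Ioc (-Real.pi) Real.pi)), χ' θ = chi (exp (θ * I)))
    (h2 : ∀ᵐ θ : ℝ ∂(volume.restrict (Ioc (-Real.pi) Real.pi)), a' θ = c / AA (vv (exp (θ * I))))
    (j k : ℕ) : fc (f0 χ' a') (-((j : ℤ) + k + 1)) = if j = 0 ∧ k = 0 then c ^ 2 * chi0 0 else 0 := by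
  have key : fc (f0 χ' a') (-((j : ℤ) + k + 1)) =
      c ^ 2 * mean (fun θ => chi0 (exp (θ * I)) * exp ((j + k : ℕ) * θ * I)) := by
    unfold fc mean
    rw [mul_left_comm (c ^ 2)]
    congr 1
    rw [← intervalIntegral.integral_const_mul,
      intervalIntegral.integral_of_le (by linarith [Real.pi_pos]),
      intervalIntegral.integral_of_le (by linarith [Real.pi_pos])]
    apply integral_congr_ae
    filter_upwards [h1, h2, ae_ne_zero] with θ e1 e2 hθ
    have hm := circ_mem hθ.1 hθ.2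
    have hA := AA_ne hE hM hm
    have hcc : c * (starRingEnd ℂ) c = 1 := by
      rw [Complex.mul_conj, Complex.normSq_eq_norm_sq, hc]; norm_num
    have hph : (starRingEnd ℂ) (phi (vv (exp (θ * I)))) = phi (vv (exp (θ * I))) := by
      rw [Complex.conj_eq_iff_im]
      exact (hB _ (vv_axis hM hm)).1
    have hee : (starRingEnd ℂ) (exp (θ * I)) = exp (-(θ * I)) := by
      rw [← Complex.exp_conj]; simp
    have hA' : (starRingEnd ℂ) (AA (vv (exp (θ * I)))) ≠ 0 := by simpa using hA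
    have hc0 : c ≠ 0 := by rintro rfl; simp at hc
    have hc0' : (starRingEnd ℂ) c ≠ 0 := by simpa using hc0
    have hcinv : (starRingEnd ℂ) c = c⁻¹ := (eq_inv_of_mul_eq_one_right hcc)
    have hx : exp (-(((-((j : ℤ) + k + 1) : ℤ) : ℂ) * θ * I)) = exp (θ * I) * exp ((j + k : ℕ) * θ * I) := by
      rw [← Complex.exp_add]
      congr 1
      push_cast
      ring
    have hy : exp (-(θ * I)) * exp (θ * I) = 1 := by
      rw [← Complex.exp_add]; simp
    unfold f0
    rw [e1, e2, hx]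
    unfold chi chi0
    simp only [map_mul, map_div₀, hph, hee, hcinv]
    calc exp (-(θ * I)) * (phi (vv (exp (θ * I))) / (starRingEnd ℂ) (AA (vv (exp (θ * I))))) *
          (c / AA (vv (exp (θ * I)))) / (c⁻¹ / (starRingEnd ℂ) (AA (vv (exp (θ * I))))) *
          (exp (θ * I) * exp ((j + k : ℕ) * θ * I))
        = (exp (-(θ * I)) * exp (θ * I)) * (c ^ 2 * (phi (vv (exp (θ * I))) / AA (vv (exp (θ * I))) *
          exp ((j + k : ℕ) * θ * I))) := by
          field_simp
      _ = _ := by rw [hy, one_mul]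
  have hcau := hC chi0 1 (chi0_diff hE hG hM) (chi0_cont hE hG hM)
    (fun z hz => (chi0_lt hE hM (D_sub hz)).le)
  rw [key]
  by_cases h : j = 0 ∧ k = 0
  · rw [if_pos h]
    obtain ⟨rfl, rfl⟩ := h
    congr 1
    rw [← hcau.1]
    congr 1
    funext θ
    simp
  · rw [if_neg h, hcau.2 (j + k) (by omega), mul_zero]

end Pool.Agent.Run7.h58.AR
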