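import Pool.Agent.Run7.h58.AR.Final2

set_option autoImplicit false

open MeasureTheory Filter Topology Set Complex

namespace Pool.Agent.Run7.h58.AR

lemma radial' {f : ℂ → ℂ} (hf : ContinuousOn f D1) {ζ : ℂ} (h : ζ ∈ D1) (h1 : ‖ζ‖ = 1) :
    Tendsto (fun r : ℝ => f (r * ζ)) (𝓝[<] 1) (𝓝 (f ζ)) := by
  have e : ζ = exp ((arg ζ : ℝ) * I) := by
    have := Complex.norm_mul_exp_arg_mul_I ζ
    rw [h1] at this
    simpa using this.symm
  rw [e] at h ⊢
  exact radial hf h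

lemma circle_pt {w : ℝ} : ‖((w : ℂ) - I) / (w + I)‖ = 1 ∧ ((w : ℂ) - I) / (w + I) ≠ 1 ∧
    I * ((1 + ((w : ℂ) - I) / (w + I)) / (1 - ((w : ℂ) - I) / (w + I))) = w := by
  have hne : (w : ℂ) + I ≠ 0 := by
    intro h
    have := congrArg Complex.im h
    simp at this
  have h2 : ‖(w : ℂ) - I‖ = ‖(w : ℂ) + I‖ := by
    rw [Complex.norm_def, Complex.norm_def]
    simp [Complex.normSq_apply]
  refine ⟨?_, ?_, ?_⟩
  · rw [norm_div, h2, div_self (norm_ne_zero_iff.2 hne)]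
  · rw [Ne, div_eq_one_iff_eq hne]
    intro h
    have := congrArg Complex.im h
    simp at this
    linarith
  · have h3 : 1 - ((w : ℂ) - I) / (w + I) = 2 * I / (w + I) := by
      field_simp; ring
    have h4 : 1 + ((w : ℂ) - I) / (w + I) = 2 * w / (w + I) := by
      field_simp; ring
    rw [h3, h4]
    field_simp

lemma vv_of_sq (hM : S_MAP) {x : ℝ} (hx : 0 ≤ x) :
    ∃ ζ ∈ D1, ‖ζ‖ = 1 ∧ vv ζ = x := by
  obtain ⟨h1, h2, h3⟩ := circle_pt (w := x ^ 2)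
  set ζ : ℂ := (((x ^ 2 : ℝ) : ℂ) - I) / ((x ^ 2 : ℝ) + I) with hζ
  have hm : ζ ∈ D1 := ⟨by simp [h1], by simpa using h2⟩
  refine ⟨ζ, hm, h1, ?_⟩
  obtain ⟨a1, a2, a3, -⟩ := hM.2.2.1 ζ hm
  rw [h3] at a3
  have h5 : (vv ζ - x) * (vv ζ + x) = 0 := by
    have : (vv ζ) ^ 2 = (x : ℂ) ^ 2 := by rw [a3]; push_cast; ring
    linear_combination this
  rcases mul_eq_zero.1 h5 with h | h
  · exact sub_eq_zero.1 h
  · have h6 : vv ζ = -(x : ℂ) := eq_neg_of_add_eq_zero_left h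
    have h7 : (vv ζ).re = -x := by rw [h6]; simp
    have h8 : x = 0 := by linarith
    rw [h6, h8]; simp

lemma not_const (hE : S_ELEM) (hG : S_GROW) (hM : S_MAP) (g : ℂ) :
    ∃ z ∈ D, chi z ≠ z * g := by
  by_contra hcon
  push Not at hcon
  have hc0 := chi0_cont hE hG hM
  have key : ∀ ζ ∈ D1, ‖ζ‖ = 1 → chi0 ζ = g := by
    intro ζ hζ h1
    have hl := radial' hc0 hζ h1
    have hev : ∀ᶠ r : ℝ in 𝓝[<] 1, r ∈ Ioo (0:ℝ) 1 := Ioo_mem_nhdsLT (by norm_num)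
    have h2 : ∀ᶠ r : ℝ in 𝓝[<] 1, g = chi0 (r * ζ) := by
      filter_upwards [hev] with r hr
      have hz : (r : ℂ) * ζ ∈ D := by simp [D, h1, abs_of_pos hr.1, hr.2]
      have hz0 : (r : ℂ) * ζ ≠ 0 := by
        apply mul_ne_zero
        · exact_mod_cast hr.1.ne'
        · rintro rfl; simp at h1
      have h3 := hcon _ hz
      unfold chi at h3
      exact (mul_left_cancel₀ hz0 h3).symm
    exact tendsto_nhds_unique hl ((tendsto_congr' h2).1 tendsto_const_nhds)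
  obtain ⟨z1, m1, n1, v1⟩ := vv_of_sq hM (x := 0) le_rfl
  obtain ⟨z2, m2, n2, v2⟩ := vv_of_sq hM (x := Real.pi) Real.pi_pos.le
  have e1 := key z1 m1 n1
  have e2 := key z2 m2 n2
  have e3 : chi0 z2 = 0 := by
    unfold chi0 phi sn
    rw [v2, if_neg (by exact_mod_cast Real.pi_ne_zero), Complex.sin_pi]
    simp
  have e4 : chi0 z1 ≠ 0 := by
    have hA := AA_ne hE hM m1
    unfold chi0
    refine div_ne_zero ?_ hA
    rw [v1]
    simp [phi, sn]
  rw [e3] at e2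
  rw [e1, ← e2] at e4
  exact e4 rfl

lemma mean_congr {f g : ℝ → ℂ}
    (h : ∀ᵐ θ : ℝ ∂(volume.restrict (Ioc (-Real.pi) Real.pi)), f θ = g θ) : mean f = mean g := by
  unfold mean
  congr 1
  rw [intervalIntegral.integral_of_le (by linarith [Real.pi_pos]),
    intervalIntegral.integral_of_le (by linarith [Real.pi_pos])]
  exact integral_congr_ae h

theorem main (hE : S_ELEM) (hB : S_BDRY) (hG : S_GROW) (hR : S_RAY) (hM : S_MAP) (hS : S_SCHW)
    (hC : S_CAU) (h1 : S_HEX) (h2 : S_HUN) (h3 : S_ATOM) (hBA : S_BA) (hLim : S_LIM) (hL : S_LOG) :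
    Goal := by
  obtain ⟨c, a1, hc, ha1, hout⟩ := outer_exists hE hG hM hS hL
  have hγ : ‖c ^ 2 * chi0 0‖ ≤ 1 := by
    rw [norm_mul, norm_pow, hc, one_pow, one_mul]
    exact (chi0_lt hE hM (D_sub (by simp [D]))).le
  obtain ⟨⟨Γ0, hΓ0⟩, huni⟩ := hLim _ hγ
  have hev : ∀ᶠ r : ℝ in 𝓝[<] 1, r ∈ Ioo (0:ℝ) 1 := Ioo_mem_nhdsLT (by norm_num)
  refine ⟨chi, chi_ba hE hG hR hM h1 h2 h3 hBA, chi_sz hE hB hG hM hS hL, ⟨Γ0, ?_⟩, ?_⟩
  · refine ⟨fun θ => chi (exp (θ * I)), a1, fun θ => c / AA (vv (exp (θ * I))),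
      boundary_of_cont (chi_cont hE hG hM), hout, ?_, ?_⟩
    · filter_upwards [ae_ne_zero] with θ hθ
      rw [bd_sq hE hB hM (circ_mem hθ.1 hθ.2), norm_div, hc, div_pow, one_pow, one_div]
    · intro j k
      rw [hΓ0, f0_fc hE hB hG hM hC hc (Eventually.of_forall fun _ => rfl)
        (Eventually.of_forall fun _ => rfl)]
  · rintro Γ ⟨χ', a, a', b1, b2, b3, b4⟩ h4
    have c1 : ∀ᵐ θ : ℝ ∂(volume.restrict (Ioc (-Real.pi) Real.pi)), χ' θ = chi (exp (θ * I)) := by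
      filter_upwards [b1, boundary_of_cont (chi_cont hE hG hM)] with θ t1 t2
      exact tendsto_nhds_unique t1 t2
    have c2 : ∀ z ∈ D, a z = a1 z := by
      intro z hz
      rw [b2.2.2.2 z hz, hout.2.2.2 z hz]
      congr 1
      apply mean_congr
      filter_upwards [c1, b3, b2.2.1, ae_ne_zero] with θ t1 t2 t3 t4
      have hm := circ_mem t4.1 t4.2
      rw [t1, bd_sq hE hB hM hm] at t2
      have hA := one_le_AA hE hM hm
      have e1 : ‖a' θ‖ = ‖c / AA (vv (exp (θ * I)))‖ := by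
        rw [norm_div, hc, one_div]
        have e2 : ‖a' θ‖ ^ 2 = (‖AA (vv (exp (θ * I)))‖⁻¹) ^ 2 := by rw [t2, inv_pow]
        exact (pow_left_inj₀ (norm_nonneg _) (by positivity) two_ne_zero).1 e2
      rw [e1]
    have c3 : ∀ᵐ θ : ℝ ∂(volume.restrict (Ioc (-Real.pi) Real.pi)),
        a' θ = c / AA (vv (exp (θ * I))) := by
      filter_upwards [b2.1, hout.1] with θ t1 t2
      refine tendsto_nhds_unique t1 (t2.congr' ?_)
      filter_upwards [hev] with r hr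
      exact (c2 _ (by simp [D, norm_exp_ofReal_mul_I, abs_of_pos hr.1, hr.2])).symm
    have c4 : ∀ j k : ℕ, (Γ (lp.single 2 k (1 : ℂ)) : ℕ → ℂ) j =
        if j = 0 ∧ k = 0 then c ^ 2 * chi0 0 else 0 := by
      intro j k
      rw [b4, f0_fc hE hB hG hM hC hc c1 c3]
    obtain ⟨z, hz, hne⟩ := not_const hE hG hM ((starRingEnd ℂ) (c ^ 2 * chi0 0))
    have d1 := h4 z hz
    have d2 : Tendsto (fun ρ : ℝ => (Pp Γ z ρ)⁻¹ * qp Γ z ρ) (𝓝[<] 1)
        (𝓝 (z * (starRingEnd ℂ) (c ^ 2 * chi0 0))) := by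
      have d3 : Tendsto (fun ρ : ℝ => (ρ : ℂ) * z * (starRingEnd ℂ) (c ^ 2 * chi0 0)) (𝓝[<] 1)
          (𝓝 (z * (starRingEnd ℂ) (c ^ 2 * chi0 0))) := by
        have : Continuous fun ρ : ℝ => (ρ : ℂ) * z * (starRingEnd ℂ) (c ^ 2 * chi0 0) := by fun_prop
        have h := this.tendsto 1
        simp only [ofReal_one, one_mul] at h
        exact h.mono_left nhdsWithin_le_nhds
      refine d3.congr' ?_
      filter_upwards [hev] with ρ hρ
      exact (huni Γ c4 z hz ρ hρ.1 hρ.2).symm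
    exact hne (tendsto_nhds_unique d1 d2)

end Pool.Agent.Run7.h58.AR
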