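import Pool.Agent.Run7.h58.AR.Defs

/-! # Interface: pieces for MP_0d9f0f_an

Each `S_XXX` is a closed proposition with its complete proof in the doc string.
File `Pool/Agent/Run7/<you>/AR/XXX.lean`, `import Pool.Agent.Run7.h58.AR.Iface`,
`theorem t_XXX : S_XXX`. -/

set_option autoImplicit false

open MeasureTheory Filter Topology Set Complex

namespace Pool.Agent.Run7.h58.AR

/-- `sin v / v` -/
noncomputable def sn (v : ℂ) : ℂ := if v = 0 then 1 else Complex.sin v / v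

/-- the numerator -/
noncomputable def phi (v : ℂ) : ℂ := (1 - v ^ 2) * sn v / 2

/-- the denominator -/
noncomputable def AA (v : ℂ) : ℂ := Complex.cos v - (I / 2) * (1 + v ^ 2) * sn v

/-- the map of the disc to the first quadrant -/
noncomputable def vv (z : ℂ) : ℂ := exp (Real.pi / 4 * I) * ((1 + z) / (1 - z)) ^ (1 / 2 : ℂ)

/-- `χ_0 = phi / AA` on the disc -/
noncomputable def chi0 (z : ℂ) : ℂ := phi (vv z) / AA (vv z)

/-- **ELEM.** The basic inequality in the closed first quadrant.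

Proof. For `v = 0` both sides are `1 + 1/4` and `|1 - I/2|^2 = 5/4`. Let `v = x + I y ≠ 0`,
`x, y ≥ 0`, `s = sn v`, `c = cos v`, `N = x^2 + y^2`. Since `z ↦ |z|^2`:
`|AA|^2 = |c|^2 + |1+v^2|^2 |s|^2 / 4 + Im (conj c * (1 + v^2) * s)`, `|phi|^2 = |1-v^2|^2 |s|^2/4`, and
`|1+v^2|^2 - |1-v^2|^2 = 4 Re v^2 = 4 (x^2 - y^2)`. With `sin v = v s`,
`conj (cos v) * sin v = (sin 2x + I sinh 2y)/2`, `|cos v|^2 = (cosh 2y + cos 2x)/2`,
`|sin v|^2 = (cosh 2y - cos 2x)/2` one gets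
`|AA|^2 - |phi|^2 = (1/2) { (2 x^2/N) cosh 2y + (2 y^2/N) cos 2x + x sinh 2y (1 + 1/N)
  + y sin 2x (1 - 1/N) }`.
Now `sinh 2y ≥ 2y`, `|sin 2x| ≤ 2x`, so the last two terms have sum `≥ 0`; and
`x^2 cosh 2y + y^2 cos 2x ≥ x^2 (1 + 2 y^2) + y^2 (1 - 2 x^2) = N`. So the difference is `≥ 1`. -/
def S_ELEM : Prop := ∀ v : ℂ, 0 ≤ v.re → 0 ≤ v.im → 1 + ‖phi v‖ ^ 2 ≤ ‖AA v‖ ^ 2

/-- **BDRY.** On the two axes `phi` is real and `|AA|^2 = 1 + phi^2`.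

Proof. `v = x` real: `sn v` is real (`sin x / x`), `phi` is real,
`AA = cos x - (I/2)(1+x^2) s`, `|AA|^2 = cos^2 x + (1+x^2)^2 s^2/4` and
`1 + phi^2 = cos^2 x + sin^2 x + (1 - x^2)^2 s^2/4` with `sin x = x s`:
`x^2 s^2 + (1-x^2)^2 s^2/4 = (1+x^2)^2 s^2/4`. `v = I y`: `sn v = sinh y / y =: s` real,
`v^2 = - y^2`, `cos v = cosh y`: `|AA|^2 = cosh^2 y + (1 - y^2)^2 s^2/4`,
`1 + phi^2 = cosh^2 y - sinh^2 y + (1 + y^2)^2 s^2/4`, `sinh y = y s`. -/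
def S_BDRY : Prop := ∀ v : ℂ, (v.re = 0 ∨ v.im = 0) → (phi v).im = 0 ∧ ‖AA v‖ ^ 2 = 1 + ‖phi v‖ ^ 2

/-- **GROW.** Both functions are entire and `|AA v| ≤ 2 (1 + |v|)^2 e^|v|`.

Proof. `sn = dslope sin 0` is entire. `|cos v| ≤ cosh |v| ≤ e^|v|`; `|sin v| ≤ sinh |v|` and
`sinh t ≤ t cosh t`, so `|sn v| ≤ cosh |v| ≤ e^|v|` (or: `sn v = ∫_0^1 cos (t v) dt`).
`|AA| ≤ e^|v| (1 + (1+|v|^2)/2)`. -/
def S_GROW : Prop := Differentiable ℂ phi ∧ Differentiable ℂ AA ∧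
  ∀ v : ℂ, ‖AA v‖ ≤ 2 * (1 + ‖v‖) ^ 2 * Real.exp ‖v‖

/-- **RAY.** On the ray `arg v = π/4`.

Proof. `v = x + I x`, `q = |v|`, `q^2 = 2 x^2`. By the formula in ELEM (with `N = 2x^2 = q^2`)
`|AA|^2 - |phi|^2 = (1/2){cosh 2x + cos 2x + x sinh 2x (1+1/q^2) + x sin 2x (1-1/q^2)}
  ≥ (1/2) (x sinh 2x - x) ≥ (x/4) sinh 2x` as `x ≥ 7`, and
`sinh 2x = 2 sinh x cosh x ≥ cosh^2 x`.
Also `|cos v| ≤ cosh x`, `|sin v| ≤ cosh x`, so
`|AA| ≤ cosh x (1 + (1+q^2)/(2q)) ≤ q cosh x`. Hence the difference is at least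
`(x/4) |AA|^2/q^2 = |AA|^2/(4 sqrt 2 q) ≥ |AA|^2/(8 q)`. -/
def S_RAY : Prop := ∀ q : ℝ, 10 ≤ q →
  ‖phi (exp (Real.pi / 4 * I) * q)‖ ^ 2 ≤ (1 - 1 / (8 * q)) * ‖AA (exp (Real.pi / 4 * I) * q)‖ ^ 2

/-- **MAP.** The map `vv`.

Proof. For `z` in the closed disc without `1` the number `w = (1+z)/(1-z)` has `Re w ≥ 0`
(`Re w = (1-|z|^2)/|1-z|^2`), so `w = 0` (iff `z = -1`) or `|arg w| ≤ π/2` and `w` is in the slit
plane; `w ^ (1/2)` has modulus `|w|^(1/2)`, argument in `[-π/4, π/4]`, square `w`; it is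
holomorphic for `w` in the slit plane and continuous at `w = 0` too (modulus tends to zero).
Multiplying by `exp(i π/4)` gives argument in `[0, π/2]`, square `I w`; on the circle `w` is
imaginary, so `vv^2` is real, and a complex number with real square is real or imaginary. -/
def S_MAP : Prop := DifferentiableOn ℂ vv D ∧ ContinuousOn vv D1 ∧
  (∀ z ∈ D1, 0 ≤ (vv z).re ∧ 0 ≤ (vv z).im ∧ (vv z) ^ 2 = I * ((1 + z) / (1 - z)) ∧
    ‖vv z‖ ≤ 2 / Real.sqrt ‖1 - z‖ ∧ (‖z‖ = 1 → (vv z).re = 0 ∨ (vv z).im = 0)) ∧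
  ∀ r : ℝ, 0 ≤ r → r < 1 → vv r = exp (Real.pi / 4 * I) * (Real.sqrt ((1 + r) / (1 - r)) : ℝ)

/-- **SCHW.** Schwarz formula for a holomorphic function whose real part is continuous up to the
circle without the point `1` and dominated by `C |1-z|^(-1/2)`.

Proof. For `s < 1` the function `F (s z)` is holomorphic on a neighbourhood of the closed disc, so
`F (s z) = mean (ker z θ * u (s e^{iθ})) + I Im F(0)` (Schwarz formula; Mathlib:
`herglotzRieszKernel`, or tree: `Pool.Agent.R951.FM.schwarz` for `F 0 = 1`, apply it to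
`1 + (F - F 0)`... or prove by the Poisson formula). Let `s → 1`: `u (s e^{iθ}) → u (e^{iθ})` for
`θ ≠ 0` in `(-π, π]` (continuity on `D1`), `|u (s e^{iθ})| ≤ C |1 - s e^{iθ}|^(-1/2)`, and
`|1 - s e^{iθ}| ≥ |1 - e^{iθ}|/2 ≥ |θ|/π` (`|1 - e^{iθ}| = 2 |sin (θ/2)| ≥ 2|θ|/π`); the function
`|θ|^(-1/2)` is integrable, `|ker z θ| ≤ 2/(1-|z|)`; dominated convergence. -/
def S_SCHW : Prop := ∀ (F : ℂ → ℂ) (u : ℂ → ℝ) (C : ℝ), DifferentiableOn ℂ F D →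
  (∀ z ∈ D, (F z).re = u z) → ContinuousOn u D1 → (∀ z ∈ D, |u z| ≤ C / Real.sqrt ‖1 - z‖) →
  IntervalIntegrable (fun θ : ℝ => u (exp (θ * I))) volume (-Real.pi) Real.pi ∧
  ∀ z ∈ D, F z = mean (fun θ => ker z θ * (u (exp (θ * I)) : ℂ)) + I * (F 0).im

/-- **CAU.** Cauchy's theorem for a bounded holomorphic function continuous on `D1`.

Proof. `mean (F(s e^{iθ}) e^{inθ}) = 0` for `n ≥ 1` and `= F 0` for `n = 0`, `s < 1` (Cauchy formula
for the holomorphic function `F(s z) z^n` on the closed disc at the centre). Let `s → 1`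
(dominated convergence, bound `C`, convergence for `θ ≠ 0`). -/
def S_CAU : Prop := ∀ (F : ℂ → ℂ) (C : ℝ), DifferentiableOn ℂ F D → ContinuousOn F D1 →
  (∀ z ∈ D, ‖F z‖ ≤ C) → mean (fun θ => F (exp (θ * I))) = F 0 ∧
    ∀ n : ℕ, 1 ≤ n → mean (fun θ => F (exp (θ * I)) * exp (n * θ * I)) = 0

/-- **HEX.** Herglotz' theorem on `(-π, π]`.

Proof. In the tree: `Pool.Agent.R951.FM.herglotz` (file `Pool/Agent/R951/FM/Hz2.lean`) gives a
probability measure `τ` on the line with `F u = ∫ ker u θ dτ` (same kernel). Push it forward under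
`toIocMod` (period `2π`, start `-π`), a measurable map not changing `exp(i θ)`. -/
def S_HEX : Prop := ∀ F : ℂ → ℂ, DifferentiableOn ℂ F D → (∀ z ∈ D, 0 ≤ (F z).re) → F 0 = 1 →
  ∃ σ : Measure ℝ, HerglotzMeasure F σ

/-- **HUN.** A Herglotz measure is bounded by `C/(2π)` times Lebesgue measure on an interval of
angles near which the real part of `F` is bounded by `C`.

Proof. Let `g ≥ 0` be continuous with support in `[a', b']`, `a < a' < b' < b`, extended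
`2π`-periodically. For `r < 1`, `Re F(r e^{iθ}) = ∫ P_r(θ - t) dσ(t)` with the Poisson kernel
`P_r(θ - t) = Re ker (r e^{iθ}) t` (take real parts in the representation), so by Fubini
`(2π)⁻¹ ∫_{-π}^{π} g(θ) Re F(r e^{iθ}) dθ = ∫ (P_r * g)(t) dσ(t)`, and `P_r * g → g` uniformly
(Poisson integrals of continuous functions) as `r → 1`. The left side is at most
`(C/2π) ∫ g`. So `∫ g dσ ≤ (C/2π) ∫ g dθ`; let `g` increase to the indicator of `(a, b)`.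
(Another way: integrate the Poisson kernel over `(a', b')`: `(2π)⁻¹ ∫_{a'}^{b'} P_r(θ - t) dθ` tends
to `1` for `t` in `(a', b')` and is `≥ 0`; Fubini and Fatou give
`σ (a', b') ≤ liminf (2π)⁻¹ ∫_{a'}^{b'} Re F(r e^{iθ}) dθ ≤ C (b' - a')/(2π)`, no continuous
functions needed.) -/
def S_HUN : Prop := ∀ (F : ℂ → ℂ) (σ : Measure ℝ) (a b C : ℝ), DifferentiableOn ℂ F D →
  HerglotzMeasure F σ → -Real.pi ≤ a → a < b → b ≤ Real.pi →
  (∀ θ ∈ Ioo a b, ∀ r : ℝ, 0 < r → r < 1 → (F (r * exp (θ * I))).re ≤ C) →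
  σ (Ioo a b) ≤ ENNReal.ofReal (C * (b - a) / (2 * Real.pi))

/-- **ATOM.** Formula for the atoms.

Proof. `((1-r)/2) F(r e^{iα}) = ∫ ((1-r)/2) ker (r e^{iα}) θ dσ(θ)`; the integrand is bounded by `1`
(`|ker z θ| ≤ 2/(1-|z|)`), tends to `0` for `θ ≠ α` in `(-π, π]` and equals `(1+r)/2 → 1` for
`θ = α`. Dominated convergence: the integrals tend to `σ {α}`. -/
def S_ATOM : Prop := ∀ (F : ℂ → ℂ) (σ : Measure ℝ) (α : ℝ), HerglotzMeasure F σ →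
  α ∈ Ioc (-Real.pi) Real.pi →
  Tendsto (fun r : ℝ => ((1 - r) / 2 : ℂ) * F (r * exp (α * I))) (𝓝[<] 1) (𝓝 ((σ {α}).toReal : ℂ))

/-- **BA.** The class `B_a` (from HEX, HUN, ATOM).

Proof. Let `E` be Schur, `F = cay χ E`. `‖χ z E z‖ < 1` on `D`, so `F` is holomorphic, `Re F ≥ 0`,
`F 0 = 1`: HEX gives existence. Let `σ` be a Herglotz measure. `|F z| ≤ 2/(1 - ‖χ z‖)`.
For `0 < δ < π` the set `{z in D1 : z = r e^{iθ}, 0 ≤ r ≤ 1, δ ≤ |θ| ≤ π}` is compact, so `‖χ‖` has a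
maximum `< 1` there and `F` is bounded on its part in `D`. HUN on all subintervals of `(δ, π)` and
of `(-π, -δ)` gives that `σ` restricted to these two intervals is `≤ C * volume` (outer regularity,
or: an interval bound on a generating system), so it is absolutely continuous there; `σ {π} = 0` by
ATOM as `F` is bounded on the radius to `-1`; `σ {0} = 0` by ATOM as
`((1-r)/2) |F r| ≤ (1-r)/(1-‖χ r‖) → 0`. `(-π, π] = {0} ∪ {π} ∪ ⋃_n (intervals with δ = 1/n)`. -/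
def S_BA : Prop := S_HEX → S_HUN → S_ATOM → ∀ χ : ℂ → ℂ, DifferentiableOn ℂ χ D → ContinuousOn χ D1 →
  (∀ z ∈ D1, ‖χ z‖ < 1) → χ 0 = 0 →
  Tendsto (fun r : ℝ => (1 - r) / (1 - ‖χ r‖)) (𝓝[<] 1) (𝓝 0) → ClassBa χ

/-- **LIM.** The Hankel operator of rank one.

Proof. The linear span of the unit vectors is dense (`lp.single`), so `Γ h = (γ * h 0) • e0` for all
`h`; its adjoint is `h ↦ (conj γ * h 0) • e0`. Existence: this formula defines a bounded operator.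
`T = Γ* Γ = Γ Γ*` is `h ↦ (‖γ‖^2 h 0) • e0`. For `0 ≤ ρ < 1` (and `‖γ‖ ≤ 1`) the operator
`1 - ρ^2 T` is invertible with inverse `h ↦ h + (ρ^2‖γ‖^2/(1 - ρ^2‖γ‖^2)) h 0 • e0` (check both
products, `Ring.inverse_eq_of_mul...`/`Ring.inverse_unit`), so `res T ρ e0 = κ • e0`,
`κ = 1/(1 - ρ^2 ‖γ‖^2)`, `root = 1/sqrt κ`, `Pp = sqrt κ`, `qp = ρ z conj γ sqrt κ`. -/
def S_LIM : Prop := ∀ γ : ℂ, ‖γ‖ ≤ 1 →
  (∃ Γ : L2 →L[ℂ] L2, ∀ j k : ℕ, (Γ (lp.single 2 k (1 : ℂ)) : ℕ → ℂ) j = if j = 0 ∧ k = 0 then γ else 0) ∧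
  ∀ Γ : L2 →L[ℂ] L2,
    (∀ j k : ℕ, (Γ (lp.single 2 k (1 : ℂ)) : ℕ → ℂ) j = if j = 0 ∧ k = 0 then γ else 0) →
    ∀ z ∈ D, ∀ ρ : ℝ, 0 < ρ → ρ < 1 → (Pp Γ z ρ)⁻¹ * qp Γ z ρ = ρ * z * (starRingEnd ℂ) γ

/-- **LOG.** A holomorphic function without zeros on the disc has a holomorphic logarithm.

Proof. In the tree in many forms (primitive of `f'/f` on the ball). -/
def S_LOG : Prop := ∀ f : ℂ → ℂ, DifferentiableOn ℂ f D → (∀ z ∈ D, f z ≠ 0) →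
  ∃ L : ℂ → ℂ, DifferentiableOn ℂ L D ∧ ∀ z ∈ D, f z = exp (L z)

end Pool.Agent.Run7.h58.AR
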